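import Pool.Agent.Lib.MP_89fcdb_gt.Interfaces

/-!
# MP_89fcdb_gt, module CPROD: the product inequality for the LS category
-/

open scoped BigOperators
open Set Topology

namespace Pool.Agent.Lib.MP_89fcdb_gt.H61

noncomputable section

/-! ## Null-homotopic inclusions -/

theorem contractibleIn_mono {X : Type} [TopologicalSpace X] {U V : Set X} (h : V ⊆ U)
    (hU : ContractibleIn U) : ContractibleIn V := by
  have := hU.comp_left (g := (⟨Set.inclusion h, continuous_inclusion h⟩ : C(V, U)))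
  exact this

theorem contractibleIn_prod {X Y : Type} [TopologicalSpace X] [TopologicalSpace Y] {U : Set X}
    {V : Set Y} (hU : ContractibleIn U) (hV : ContractibleIn V) :
    ContractibleIn (U ×ˢ V) := by
  obtain ⟨x, hx⟩ := hU
  obtain ⟨y, hy⟩ := hV
  let p : C(↥(U ×ˢ V), U) := ⟨fun w => ⟨w.1.1, w.2.1⟩, by fun_prop⟩
  let q : C(↥(U ×ˢ V), V) := ⟨fun w => ⟨w.1.2, w.2.2⟩, by fun_prop⟩
  have h1 := hx.comp (ContinuousMap.Homotopic.refl p)
  have h2 := hy.comp (ContinuousMap.Homotopic.refl q)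
  exact ⟨(x, y), h1.prodMk h2⟩

/-- In a path connected space every null-homotopic map is homotopic to any constant map. -/
theorem homotopic_const {X Z : Type} [TopologicalSpace X] [TopologicalSpace Z]
    [PathConnectedSpace Z] {f : C(X, Z)} (hf : f.Nullhomotopic) (z₀ : Z) :
    f.Homotopic (ContinuousMap.const X z₀) := by
  obtain ⟨z, hz⟩ := hf
  obtain ⟨γ⟩ := PathConnectedSpace.joined z z₀
  refine hz.trans ⟨⟨⟨fun w => γ w.1, by fun_prop⟩, fun x => ?_, fun x => ?_⟩⟩
  · simp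
  · simp

/-- A union of disjoint open sets, each null-homotopic in a path connected space, is
null-homotopic. -/
theorem contractibleIn_iUnion {ι : Type} {Z : Type} [TopologicalSpace Z] [PathConnectedSpace Z]
    (W : ι → Set Z) (hW : ∀ i, IsOpen (W i)) (hd : ∀ i j, ∀ z, z ∈ W i → z ∈ W j → i = j)
    (hc : ∀ i, ContractibleIn (W i)) : ContractibleIn (⋃ i, W i) := by
  obtain ⟨z₀⟩ : Nonempty Z := inferInstance
  have hH : ∀ i, Nonempty (ContinuousMap.Homotopy
      (⟨Subtype.val, continuous_subtype_val⟩ : C(W i, Z)) (ContinuousMap.const (W i) z₀)) :=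
    fun i => homotopic_const (hc i) z₀
  have H := fun i => (hH i).some
  let S : ι → Set (unitInterval × ↥(⋃ i, W i)) := fun i => {p | (p.2 : Z) ∈ W i}
  let φ : ∀ i, C(S i, Z) := fun i =>
    ⟨fun p => H i (p.1.1, ⟨(p.1.2 : Z), p.2⟩), by
      refine (H i).continuous.comp ?_
      refine Continuous.prodMk (by fun_prop) ?_
      exact Continuous.subtype_mk (by fun_prop) _⟩
  have hφ : ∀ (i j) (x : unitInterval × ↥(⋃ i, W i)) (hxi : x ∈ S i) (hxj : x ∈ S j),
      φ i ⟨x, hxi⟩ = φ j ⟨x, hxj⟩ := by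
    intro i j x hxi hxj
    obtain rfl := hd i j _ hxi hxj
    rfl
  have hS : ∀ x : unitInterval × ↥(⋃ i, W i), ∃ i, S i ∈ 𝓝 x := by
    intro x
    obtain ⟨i, hi⟩ := mem_iUnion.1 x.2.2
    refine ⟨i, IsOpen.mem_nhds ?_ hi⟩
    exact (hW i).preimage (by fun_prop : Continuous
      (fun p : unitInterval × ↥(⋃ i, W i) => (p.2 : Z)))
  refine ⟨z₀, ⟨⟨ContinuousMap.liftCover S φ hφ hS, ?_, ?_⟩⟩⟩
  · intro x
    obtain ⟨i, hi⟩ := mem_iUnion.1 x.2
    have h1 : ((0 : unitInterval), x) ∈ S i := hi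
    have h2 := ContinuousMap.liftCover_coe (S := S) (φ := φ) (hφ := hφ) (hS := hS) ⟨_, h1⟩
    refine h2.trans ?_
    simp [φ]
  · intro x
    obtain ⟨i, hi⟩ := mem_iUnion.1 x.2
    have h1 : ((1 : unitInterval), x) ∈ S i := hi
    have h2 := ContinuousMap.liftCover_coe (S := S) (φ := φ) (hφ := hφ) (hS := hS) ⟨_, h1⟩
    refine h2.trans ?_
    simp [φ]

/-! ## Cumulative sums of a partition of unity -/

/-- Continuous monotone cumulative sums subordinate to an open cover. -/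
theorem exists_psums {X : Type} [TopologicalSpace X] [CompactSpace X] [T2Space X] (m : ℕ)
    (U : Fin (m + 1) → Set X) (hU : ∀ i, IsOpen (U i)) (hc : ⋃ i, U i = Set.univ) :
    ∃ a : ℕ → X → ℝ, (∀ i, Continuous (a i)) ∧ (∀ x, a 0 x = 0) ∧ (∀ x, a (m + 1) x = 1) ∧
      (∀ x, Monotone fun i => a i x) ∧
      ∀ (i : Fin (m + 1)) (x : X), a i x < a (i + 1) x → x ∈ U i := by
  obtain ⟨f, hf⟩ := PartitionOfUnity.exists_isSubordinate (s := (univ : Set X)) isClosed_univ U hU
    (by rw [hc])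
  let g : ℕ → X → ℝ := fun i x => if h : i < m + 1 then f ⟨i, h⟩ x else 0
  have hg0 : ∀ i x, 0 ≤ g i x := by
    intro i x
    by_cases h : i < m + 1
    · simp only [g, h, dif_pos]; exact f.nonneg _ _
    · simp only [g, h, dif_neg, not_false_eq_true]; exact le_rfl
  refine ⟨fun i x => ∑ j ∈ Finset.range i, g j x, ?_, ?_, ?_, ?_, ?_⟩
  · intro i
    refine continuous_finsetSum _ fun j _ => ?_
    by_cases h : j < m + 1
    · simp only [g, h, dif_pos]; exact (f ⟨j, h⟩).continuous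
    · simp only [g, h, dif_neg, not_false_eq_true]; exact continuous_const
  · intro x; simp
  · intro x
    have h1 := f.sum_eq_one (mem_univ x)
    rw [finsum_eq_sum_of_fintype] at h1
    beta_reduce
    rw [← h1, Finset.sum_range]
    refine Finset.sum_congr rfl fun i _ => ?_
    simp only [g, dif_pos i.2, Fin.eta]
  · intro x
    refine monotone_nat_of_le_succ fun i => ?_
    beta_reduce
    rw [Finset.sum_range_succ]
    linarith [hg0 i x]
  · intro i x h
    beta_reduce at h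
    rw [Finset.sum_range_succ] at h
    have h1 : g i x ≠ 0 := by
      intro h0
      rw [h0] at h
      simp at h
    have h2 : f i x ≠ 0 := by
      simpa only [g, dif_pos i.2, Fin.eta] using h1
    exact hf i (subset_tsupport _ (by simpa using h2))

/-- For `0 < t < 1` outside the values `a i`, `t` lies strictly between two consecutive values. -/
theorem exists_between (m : ℕ) (a : ℕ → ℝ) (h0 : a 0 = 0) (h1 : a (m + 1) = 1) (t : ℝ)
    (ht0 : 0 < t) (ht1 : t < 1) (hne : ∀ i, i ≤ m + 1 → t ≠ a i) :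
    ∃ i : Fin (m + 1), a i < t ∧ t < a (i + 1) := by
  classical
  have hex : ∃ k, t < a k := ⟨m + 1, by rw [h1]; exact ht1⟩
  have hk := Nat.find_spec hex
  have hk1 : Nat.find hex ≤ m + 1 := Nat.find_min' hex (by rw [h1]; exact ht1)
  have hk0 : Nat.find hex ≠ 0 := by
    intro h
    rw [h, h0] at hk
    linarith
  obtain ⟨i, hi⟩ := Nat.exists_eq_succ_of_ne_zero hk0
  have him : i < m + 1 := by omega
  refine ⟨⟨i, him⟩, ?_, ?_⟩
  · have h2 : ¬ t < a i := Nat.find_min hex (by omega)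
    exact lt_of_le_of_ne (not_lt.1 h2) (fun h => hne i (by omega) h.symm)
  · have h3 : t < a (i + 1) := by
      have := hk
      rw [hi] at this
      exact this
    exact h3

/-! ## The product inequality -/

theorem catProd (X Y : Type) [TopologicalSpace X] [TopologicalSpace Y] [CompactSpace X]
    [CompactSpace Y] [T2Space X] [T2Space Y] [PathConnectedSpace X] [PathConnectedSpace Y]
    (m n : ℕ) (hX : CatLE X m) (hY : CatLE Y n) : CatLE (X × Y) (m + n) := by
  obtain ⟨U, hUo, hUc, hUu⟩ := hX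
  obtain ⟨V, hVo, hVc, hVu⟩ := hY
  obtain ⟨a, hac, ha0, ha1, ham, haU⟩ := exists_psums m U hUo hUu
  obtain ⟨b, hbc, hb0, hb1, hbm, hbV⟩ := exists_psums n V hVo hVu
  let W : Fin (m + 1) × Fin (n + 1) → Set (X × Y) := fun ij =>
    {p | a ij.1 p.1 < a (ij.1 + 1) p.1 ∧ a ij.1 p.1 < b (ij.2 + 1) p.2 ∧
      b ij.2 p.2 < a (ij.1 + 1) p.1 ∧ b ij.2 p.2 < b (ij.2 + 1) p.2}
  have hWo : ∀ ij, IsOpen (W ij) := by
    intro ij
    have c1 : ∀ k : ℕ, Continuous fun p : X × Y => a k p.1 := fun k =>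
      (hac k).comp continuous_fst
    have c2 : ∀ k : ℕ, Continuous fun p : X × Y => b k p.2 := fun k =>
      (hbc k).comp continuous_snd
    exact (isOpen_lt (c1 _) (c1 _)).inter ((isOpen_lt (c1 _) (c2 _)).inter
      ((isOpen_lt (c2 _) (c1 _)).inter (isOpen_lt (c2 _) (c2 _))))
  have hWc : ∀ ij, ContractibleIn (W ij) := by
    intro ij
    refine contractibleIn_mono (U := U ij.1 ×ˢ V ij.2) ?_
      (contractibleIn_prod (hUc ij.1) (hVc ij.2))
    rintro p ⟨h1, -, -, h4⟩
    exact ⟨haU _ _ h1, hbV _ _ h4⟩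
  have hWd : ∀ ij kl : Fin (m + 1) × Fin (n + 1), (ij.1 : ℕ) + ij.2 = kl.1 + kl.2 → ∀ p,
      p ∈ W ij → p ∈ W kl → ij = kl := by
    have key : ∀ ij kl : Fin (m + 1) × Fin (n + 1), (ij.1 : ℕ) + ij.2 = kl.1 + kl.2 →
        (ij.1 : ℕ) < kl.1 → ∀ p, p ∈ W ij → p ∈ W kl → False := by
      rintro ij kl hs hlt p ⟨-, -, h3, -⟩ ⟨-, h2', -, -⟩
      have e1 : a (ij.1 + 1) p.1 ≤ a kl.1 p.1 := ham p.1 (by omega)
      have e2 : b (kl.2 + 1) p.2 ≤ b ij.2 p.2 := hbm p.2 (by omega)
      linarith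
    intro ij kl hs p h1 h2
    rcases lt_trichotomy (ij.1 : ℕ) kl.1 with h | h | h
    · exact (key ij kl hs h p h1 h2).elim
    · have h' : (ij.2 : ℕ) = kl.2 := by omega
      exact Prod.ext (Fin.ext h) (Fin.ext h')
    · exact (key kl ij hs.symm h p h2 h1).elim
  let T : Fin (m + n + 1) → Set (X × Y) := fun k =>
    ⋃ ij : {ij : Fin (m + 1) × Fin (n + 1) // (ij.1 : ℕ) + ij.2 = k}, W ij.1
  refine ⟨T, fun k => isOpen_iUnion fun ij => hWo _, fun k => ?_, ?_⟩
  · refine contractibleIn_iUnion _ (fun ij => hWo _) ?_ fun ij => hWc _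
    intro ij kl z h1 h2
    exact Subtype.ext (hWd _ _ (ij.2.trans kl.2.symm) z h1 h2)
  · refine eq_univ_of_forall fun p => ?_
    let F : Finset ℝ := (Finset.range (m + 2)).image (fun i => a i p.1) ∪
      (Finset.range (n + 2)).image (fun j => b j p.2)
    obtain ⟨t, ht, htF⟩ := (Set.Ioo_infinite (show (0 : ℝ) < 1 by norm_num)).exists_notMem_finset F
    have hta : ∀ i, i ≤ m + 1 → t ≠ a i p.1 := by
      intro i hi h
      exact htF (Finset.mem_union_left _ (Finset.mem_image.2 ⟨i, by simp; omega, h.symm⟩))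
    have htb : ∀ j, j ≤ n + 1 → t ≠ b j p.2 := by
      intro i hi h
      exact htF (Finset.mem_union_right _ (Finset.mem_image.2 ⟨i, by simp; omega, h.symm⟩))
    obtain ⟨i, hi1, hi2⟩ := exists_between m (fun i => a i p.1) (ha0 _) (ha1 _) t ht.1 ht.2 hta
    obtain ⟨j, hj1, hj2⟩ := exists_between n (fun j => b j p.2) (hb0 _) (hb1 _) t ht.1 ht.2 htb
    refine mem_iUnion.2 ⟨⟨(i : ℕ) + j, by omega⟩, mem_iUnion.2 ⟨⟨(i, j), rfl⟩, ?_⟩⟩
    exact ⟨hi1.trans hi2, hi1.trans hj2, hj1.trans hi2, hj1.trans hj2⟩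

/-- Module CPROD. -/
theorem catProdStatement : CatProdStatement := by
  intro X Y _ _ _ _ _ _ _ _ m n hX hY
  exact catProd X Y m n hX hY

end

end Pool.Agent.Lib.MP_89fcdb_gt.H61
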